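import Pool.Agent.Helper6.AK.DGoals

/-! Packet AKD-COMS (MP_75608d_al, helper6): the support of a commutator. -/

namespace Pool.Agent.Helper32.AK

open Equiv Finset

variable {n : ℕ}

lemma fix_inv {c : Perm (Fin n)} {v : Fin n} (h : v ∉ c.support) : c⁻¹ v = v := by
  have h1 : c v = v := Perm.notMem_support.1 h
  rw [Perm.inv_eq_iff_eq, h1]

lemma inv_mem {c : Perm (Fin n)} {v : Fin n} (h : v ∈ c.support) : c⁻¹ v ∈ c.support := by
  have h1 : v ∈ (c⁻¹).support := by rwa [Perm.support_inv]
  have h2 := (Perm.apply_mem_support (f := c⁻¹) (x := v)).2 h1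
  rwa [Perm.support_inv] at h2

theorem thm : Pool.Agent.Helper6.AK.S_COMS := by
  intro n c c₀ h
  classical
  set d : Perm (Fin n) := h * c₀ * h⁻¹ with hd
  set A := c₀.support.filter (fun p => h p ∈ c.support) with hA
  have hdapp : ∀ p, d (h p) = h (c₀ p) := by
    intro p
    rw [hd]
    simp [Perm.mul_apply]
  have hdinv : ∀ p, d⁻¹ (h p) = h (c₀⁻¹ p) := by
    intro p
    rw [Perm.inv_eq_iff_eq, hdapp]
    simp
  have hdsupp : ∀ p, h p ∈ d.support ↔ p ∈ c₀.support := by
    intro p
    rw [Perm.mem_support, Perm.mem_support, hdapp]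
    exact h.injective.ne_iff
  constructor
  · -- upper bound
    set I := A.image h with hI
    have hIcard : I.card ≤ A.card := card_image_le
    have hmemI : ∀ v, v ∈ c.support → v ∈ d.support → v ∈ I := by
      intro v h1 h2
      rw [hI, mem_image]
      refine ⟨h⁻¹ v, ?_, by simp⟩
      rw [hA, mem_filter]
      constructor
      · rw [← hdsupp]
        simpa using h2
      · simpa using h1
    have hsub : (c * d * c⁻¹ * d⁻¹).support ⊆ I ∪ (I.image c ∪ I.image d) := by
      intro v hv
      by_contra hv'
      rw [mem_union, mem_union, not_or, not_or] at hv'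
      obtain ⟨h1, h2, h3⟩ := hv'
      apply (Perm.mem_support.1 hv)
      change c (d (c⁻¹ (d⁻¹ v))) = v
      by_cases hvd : v ∈ d.support
      · have hvc : v ∉ c.support := fun hvc => h1 (hmemI v hvc hvd)
        have h4 : d⁻¹ v ∈ d.support := inv_mem hvd
        have h5 : d⁻¹ v ∉ c.support := by
          intro h5
          apply h3
          rw [mem_image]
          exact ⟨d⁻¹ v, hmemI _ h5 h4, by simp⟩
        rw [fix_inv h5]
        have h6 : d (d⁻¹ v) = v := by simp
        rw [h6]
        exact Perm.notMem_support.1 hvc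
      · rw [fix_inv hvd]
        by_cases hvc : v ∈ c.support
        · have h4 : c⁻¹ v ∈ c.support := inv_mem hvc
          have h5 : c⁻¹ v ∉ d.support := by
            intro h5
            apply h2
            rw [mem_image]
            exact ⟨c⁻¹ v, hmemI _ h4 h5, by simp⟩
          rw [Perm.notMem_support.1 h5]
          simp
        · rw [fix_inv hvc, Perm.notMem_support.1 hvd, Perm.notMem_support.1 hvc]
    have h4 := card_le_card hsub
    have h5 := card_union_le I (I.image c ∪ I.image d)
    have h6 := card_union_le (I.image c) (I.image d)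
    have h7 : (I.image c).card ≤ I.card := card_image_le
    have h8 : (I.image d).card ≤ I.card := card_image_le
    omega
  · -- lower bound
    set B := c₀.support.filter (fun p => h p ∈ c.support ∧ h (c₀⁻¹ p) ∈ c.support) with hB
    have hsub : A ⊆ ((c * d * c⁻¹ * d⁻¹).support.image (h⁻¹ : Perm (Fin n))) ∪ B := by
      intro p hp
      obtain ⟨h1, h2⟩ := mem_filter.1 hp
      rw [mem_union]
      by_cases h3 : h (c₀⁻¹ p) ∈ c.support
      · right
        exact mem_filter.2 ⟨h1, h2, h3⟩
      · left
        rw [mem_image]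
        refine ⟨h p, ?_, by simp⟩
        rw [Perm.mem_support]
        change c (d (c⁻¹ (d⁻¹ (h p)))) ≠ h p
        rw [hdinv, fix_inv h3, ← hdinv]
        have h6 : d (d⁻¹ (h p)) = h p := by simp
        rw [h6]
        exact Perm.mem_support.1 h2
    have h4 := card_le_card hsub
    have h5 := card_union_le ((c * d * c⁻¹ * d⁻¹).support.image (h⁻¹ : Perm (Fin n))) B
    have h6 : ((c * d * c⁻¹ * d⁻¹).support.image (h⁻¹ : Perm (Fin n))).card ≤
      (c * d * c⁻¹ * d⁻¹).support.card := card_image_le
    omega

end Pool.Agent.Helper32.AK
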